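import Mathlib

set_option autoImplicit false

namespace Pool.Agent.Lib.MP_86e60f_al.Fp

theorem twist_lift {B A : Type} [CommRing B] [CommRing A] (σ : B →+* A) (ev : A →+* B)
    (hσ : ∀ b, ev (σ b) = b) {M N : Type} [AddCommGroup M] [Module B M] [AddCommGroup N]
    [Module A N] (e : N →ₛₗ[ev] M) (he : Function.Surjective e) {F : Type} [AddCommGroup F]
    [Module B F] [Module.Finite B F] [Module.Free B F] (g : F →ₗ[B] M) :
    ∃ θ : F →ₛₗ[σ] N, ∀ f, e (θ f) = g f := by
  classical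
  let b := Module.Free.chooseBasis B F
  choose w hw using fun i => he (g (b i))
  refine ⟨⟨⟨fun f => ∑ i, σ (b.repr f i) • w i, fun x y => ?_⟩, fun c x => ?_⟩, fun f => ?_⟩
  · simp [add_smul, Finset.sum_add_distrib]
  · simp [mul_smul, Finset.smul_sum]
  · change e (∑ i, σ (b.repr f i) • w i) = g f
    rw [map_sum]
    simp only [LinearMap.map_smulₛₗ, hσ, hw]
    conv_rhs => rw [← b.sum_repr f]
    simp only [map_sum, map_smul]

/-- A module without first order obstructions lifts to a deformation. -/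
theorem exists_twist {B A : Type} [CommRing B] [CommRing A] [IsNoetherianRing A]
    (σ : B →+* A) (ev : A →+* B) (ε : A) (hσ : ∀ b, ev (σ b) = b) (hε : ev ε = 0)
    {M N : Type} [AddCommGroup M] [Module B M] [AddCommGroup N] [Module A N] [Module.Finite A N]
    (e : N →ₛₗ[ev] M) (he : Function.Surjective e) (hker : ∀ w, e w = 0 → ∃ w', ε • w' = w)
    (hreg : IsSMulRegular N ε) {K F : Type} [AddCommGroup K] [Module B K] [Module.Finite B K]
    [AddCommGroup F] [Module B F] [Module.Finite B F] [Module.Free B F]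
    (ι : K →ₗ[B] F) (π : F →ₗ[B] M) (hπ : Function.Surjective π) (hex : Function.Exact ι π)
    (h : ∀ φ : K →ₗ[B] M, ∃ θ : F →ₗ[B] M, ∀ v, θ (ι v) = φ v) :
    ∃ (ψ : M →ₛₗ[σ] N) (ρ : A), ev ρ = 1 ∧ ∀ w : N, ρ • w ∈ Submodule.span A (Set.range ψ) := by
  have h1 : ∀ j : ℕ, ∃ θ : F →ₛₗ[σ] N, (∀ f, e (θ f) = π f) ∧
      ∀ v, ∃ w, ε ^ (j + 1) • w = θ (ι v) := by
    intro j
    induction j with
    | zero =>
      obtain ⟨θ, hθ⟩ := twist_lift σ ev hσ e he π
      refine ⟨θ, hθ, fun v => ?_⟩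
      rw [zero_add, pow_one]
      exact hker _ (by rw [hθ, hex.apply_apply_eq_zero])
    | succ j ih =>
      obtain ⟨θ, hθ, h2⟩ := ih
      choose φ hφ using h2
      have hr := hreg.pow (j + 1)
      have a1 : ∀ x y, φ (x + y) = φ x + φ y := fun x y => hr (by
        simp only [smul_add, hφ, map_add])
      have a2 : ∀ (c : B) x, φ (c • x) = σ c • φ x := fun c x => hr (by
        simp only [smul_comm (ε ^ (j + 1)) (σ c), hφ, map_smul, LinearMap.map_smulₛₗ])
      obtain ⟨θ₀, h3⟩ := h ⟨⟨fun v => e (φ v), fun x y => by rw [a1, map_add]⟩, fun c x => by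
        simp only [a2, LinearMap.map_smulₛₗ, hσ, RingHom.id_apply]⟩
      obtain ⟨θ₁, h4⟩ := twist_lift σ ev hσ e he θ₀
      refine ⟨θ - ε ^ (j + 1) • θ₁, fun f => ?_, fun v => ?_⟩
      · simp [hθ, hε]
      · obtain ⟨w, hw⟩ := hker (φ v - θ₁ (ι v)) (by
          rw [map_sub, h4, h3]
          exact sub_self _)
        refine ⟨w, ?_⟩
        rw [pow_succ, mul_smul, hw, smul_sub, hφ]
        rfl
  obtain ⟨s, v, hv⟩ := Module.Finite.exists_fin (R := B) (M := K)
  let L : (F →ₛₗ[σ] N) →ₗ[A] (Fin s → N) :=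
    ⟨⟨fun θ i => θ (ι (v i)), fun _ _ => rfl⟩, fun _ _ => rfl⟩
  obtain ⟨k, hk⟩ := Ideal.exists_pow_inf_eq_pow_smul (Ideal.span {ε}) (LinearMap.range L)
  obtain ⟨θ, hθ, h2⟩ := h1 k
  choose w hw using h2
  have h3 : L θ ∈ Ideal.span {ε} ^ (k + 1) • (⊤ : Submodule A (Fin s → N)) ⊓ LinearMap.range L := by
    refine ⟨?_, θ, rfl⟩
    have a1 : L θ = ε ^ (k + 1) • fun i => w (v i) := funext fun i => (hw (v i)).symm
    rw [a1]
    exact Submodule.smul_mem_smul (Ideal.pow_mem_pow (Ideal.mem_span_singleton_self ε) _)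
      Submodule.mem_top
  rw [hk (k + 1) (Nat.le_succ k), Nat.add_sub_cancel_left, pow_one,
    Submodule.ideal_span_singleton_smul, Submodule.mem_smul_pointwise_iff_exists] at h3
  obtain ⟨_, ⟨-, θ', rfl⟩, h4⟩ := h3
  have h5 : ∀ x, (θ - ε • θ') (ι x) = 0 := by
    intro x
    have hx : x ∈ Submodule.span B (Set.range v) := hv.ge Submodule.mem_top
    induction hx using Submodule.span_induction with
    | mem y hy =>
      obtain ⟨i, rfl⟩ := hy
      exact sub_eq_zero.2 (congrFun h4 i).symm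
    | zero => simp
    | add y z _ _ hy hz => rw [map_add, map_add, hy, hz, add_zero]
    | smul c y _ hy => rw [map_smul, LinearMap.map_smulₛₗ, hy, smul_zero]
  have h6 : ∀ f, e ((θ - ε • θ') f) = π f := fun f => by simp [hθ, hε]
  generalize θ - ε • θ' = τ at h5 h6
  have h7 : ∀ f f', π f = π f' → τ f = τ f' := by
    intro f f' hf
    obtain ⟨x, hx⟩ := (hex (f - f')).1 (by rw [map_sub, hf, sub_self])
    rw [← sub_eq_zero, ← map_sub, ← hx, h5]
  choose t ht using hπ
  let ψ : M →ₛₗ[σ] N := ⟨⟨fun m => τ (t m), fun x y => by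
    rw [← map_add]
    exact h7 _ _ (by rw [map_add, ht, ht, ht])⟩, fun c x => by
    rw [← LinearMap.map_smulₛₗ]
    exact h7 _ _ (by rw [map_smul, ht, ht])⟩
  have h8 : (⊤ : Submodule A N) ≤ Submodule.span A (Set.range ψ) ⊔ Ideal.span {ε} • ⊤ := by
    intro x _
    obtain ⟨y, hy⟩ := hker (x - ψ (e x)) (by
      rw [map_sub]
      exact sub_eq_zero.2 ((h6 _).trans (ht _)).symm)
    have a1 : x = ψ (e x) + ε • y := by rw [hy]; abel
    rw [a1]
    exact Submodule.add_mem_sup (Submodule.subset_span ⟨_, rfl⟩)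
      (Submodule.smul_mem_smul (Ideal.mem_span_singleton_self ε) Submodule.mem_top)
  obtain ⟨ρ, h9, h10⟩ := Submodule.exists_sub_one_mem_and_smul_le_of_fg_of_le_sup
    Module.Finite.fg_top le_rfl h8
  refine ⟨ψ, ρ, ?_, fun x => h10 (Submodule.smul_mem_pointwise_smul _ _ _ Submodule.mem_top)⟩
  obtain ⟨c, hc⟩ := Ideal.mem_span_singleton'.1 h9
  have a1 := congrArg ev hc
  rw [map_mul, hε, mul_zero, map_sub, map_one] at a1
  exact sub_eq_zero.1 a1.symm

end Pool.Agent.Lib.MP_86e60f_al.Fp
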