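import Mathlib

set_option autoImplicit false

open PowerSeries

namespace Pool.Agent.Lib.MP_86e60f_al.Fp

variable {k : Type} [CommRing k]

/-- `i` identifies `B` with the power series supported on `S`. -/
structure IsSer {B : Type} [CommRing B] (i : B →+* k⟦X⟧) (S : AddSubmonoid ℕ) : Prop where
  inj : Function.Injective i
  supp : ∀ b, ∀ m ∉ S, coeff m (i b) = 0
  surj : ∀ f : k⟦X⟧, (∀ m ∉ S, coeff m f = 0) → ∃ b, i b = f

/-- The power series supported on `S`. -/
def Ser (k : Type) [CommRing k] (S : AddSubmonoid ℕ) : Subring k⟦X⟧ where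
  carrier := {f | ∀ m ∉ S, coeff m f = 0}
  mul_mem' := fun {f g} hf hg m hm => by
    rw [coeff_mul]
    refine Finset.sum_eq_zero fun p hp => ?_
    by_cases h1 : p.1 ∈ S
    · rw [hg p.2 fun h2 => hm (Finset.HasAntidiagonal.mem_antidiagonal.1 hp ▸ add_mem h1 h2), mul_zero]
    · rw [hf p.1 h1, zero_mul]
  one_mem' := fun m hm => by
    rw [coeff_one, if_neg]
    rintro rfl
    exact hm (zero_mem S)
  add_mem' := fun {f g} hf hg m hm => by rw [map_add, hf m hm, hg m hm, add_zero]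
  zero_mem' := fun m _ => map_zero _
  neg_mem' := fun {f} hf m hm => by rw [map_neg, hf m hm, neg_zero]

theorem isSer_ser (S : AddSubmonoid ℕ) : IsSer (Ser k S).subtype S :=
  ⟨Subtype.val_injective, fun b => b.2, fun f hf => ⟨⟨f, hf⟩, rfl⟩⟩

theorem isSer_expand {n : ℕ} (hn : n ≠ 0) :
    IsSer (expand (R := k) n hn).toRingHom (AddSubmonoid.closure {n}) := by
  have h0 : ∀ m, m ∈ AddSubmonoid.closure {n} ↔ n ∣ m := fun m => by
    rw [AddSubmonoid.mem_closure_singleton]
    exact ⟨fun ⟨a, ha⟩ => ⟨a, by rw [← ha, smul_eq_mul, mul_comm]⟩,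
      fun ⟨a, ha⟩ => ⟨a, by rw [ha, smul_eq_mul, mul_comm]⟩⟩
  refine ⟨fun f g h => PowerSeries.ext fun m => ?_,
    fun b m hm => coeff_expand_of_not_dvd n hn b fun h => hm ((h0 m).2 h),
    fun f hf => ⟨PowerSeries.mk fun m => coeff (n * m) f, PowerSeries.ext fun m => ?_⟩⟩
  · rw [← coeff_expand_mul n hn f, ← coeff_expand_mul n hn g]
    exact congrArg _ h
  · change coeff m (expand n hn _) = _
    rw [coeff_expand]
    split_ifs with h
    · rw [coeff_mk, Nat.mul_div_cancel' h]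
    · exact (hf m fun h1 => h ((h0 m).1 h1)).symm

variable {C B : Type} [CommRing C] [CommRing B] {iC : C →+* k⟦X⟧} {iB : B →+* k⟦X⟧}
  {S S' : AddSubmonoid ℕ}

theorem IsSer.exists_hom (hC : IsSer iC S) (hB : IsSer iB S') (h : S ≤ S') :
    ∃ j : C →+* B, ∀ c, iB (j c) = iC c := by
  choose j hj using fun c => hB.surj (iC c) fun m hm => hC.supp c m fun h1 => hm (h h1)
  exact ⟨{ toFun := j
           map_one' := hB.inj (by simp [hj])
           map_mul' := fun a b => hB.inj (by simp [hj])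
           map_zero' := hB.inj (by simp [hj])
           map_add' := fun a b => hB.inj (by simp [hj]) }, hj⟩

theorem IsSer.exists_pow (hB : IsSer iB S) {m : ℕ} (hm : m ∈ S) : ∃ x, iB x = X ^ m :=
  hB.surj _ fun j hj => by
    rw [coeff_X_pow, if_neg]
    rintro rfl
    exact hj hm

theorem IsSer.mem_of_pow [Nontrivial k] (hB : IsSer iB S) {m : ℕ} {x : B} (hx : iB x = X ^ m) : m ∈ S := by
  by_contra hm
  have := hB.supp x m hm
  rw [hx, coeff_X_pow_self] at this
  exact one_ne_zero this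

theorem IsSer.exists_basis [Algebra C B] (hC : IsSer iC S) (hB : IsSer iB S')
    (hj : ∀ c, iB (algebraMap C B c) = iC c) {x : B} {n e : ℕ} (hx : iB x = X ^ n)
    (hex : ∀ m ∈ S', ∃ j < e + 1, ∃ s ∈ S, m = s + n * j)
    (hun : ∀ j < e + 1, ∀ j' < e + 1, ∀ s ∈ S, ∀ s' ∈ S, s + n * j = s' + n * j' → j = j') :
    ∃ b : Module.Basis (Fin (e + 1)) C B, ∀ i, b i = x ^ (i : ℕ) := by
  classical
  have h0 : ∀ (g : Fin (e + 1) → C) m, coeff m (iB (∑ i, g i • x ^ (i : ℕ))) =
      ∑ i : Fin (e + 1), if n * i ≤ m then coeff (m - n * i) (iC (g i)) else 0 := fun g m => by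
    rw [map_sum, map_sum]
    refine Finset.sum_congr rfl fun i _ => ?_
    rw [Algebra.smul_def, map_mul, hj, map_pow, hx, ← pow_mul, coeff_mul_X_pow']
  have h1 : ∀ (g : Fin (e + 1) → C) (j : Fin (e + 1)), ∀ s ∈ S,
      coeff (s + n * j) (iB (∑ i, g i • x ^ (i : ℕ))) = coeff s (iC (g j)) := fun g j s hs => by
    rw [h0, Finset.sum_eq_single j, if_pos (Nat.le_add_left _ _), Nat.add_sub_cancel]
    · intro i _ hi
      split_ifs with h
      · exact hC.supp _ _ fun h2 => hi (Fin.ext (hun i i.2 j j.2 _ h2 s hs (by omega)))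
      · rfl
    · intro h; exact absurd (Finset.mem_univ _) h
  refine ⟨Module.Basis.mk (v := fun i : Fin (e + 1) => x ^ (i : ℕ))
    (Fintype.linearIndependent_iff.2 fun g hg i => hC.inj (PowerSeries.ext fun s => ?_))
    fun y _ => ?_, fun i => Module.Basis.mk_apply _ _ i⟩
  · by_cases hs : s ∈ S
    · rw [← h1 g i s hs, hg]; simp
    · rw [hC.supp _ _ hs]; simp
  · choose g hg using fun j : Fin (e + 1) => hC.surj
      (PowerSeries.mk fun s => if s ∈ S then coeff (s + n * j) (iB y) else 0)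
      fun m hm => by rw [coeff_mk, if_neg hm]
    refine (Submodule.mem_span_range_iff_exists_fun C).2
      ⟨g, hB.inj (PowerSeries.ext fun m => ?_)⟩
    by_cases hm : m ∈ S'
    · obtain ⟨j, hj, s, hs, rfl⟩ := hex m hm
      rw [h1 g ⟨j, hj⟩ s hs, hg, coeff_mk, if_pos hs]
    · rw [hB.supp _ _ hm, hB.supp _ _ hm]

end Pool.Agent.Lib.MP_86e60f_al.Fp
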