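import Mathlib
import Pool.Agent.Lib.MP_86e60f_al.Fp.Ser

set_option autoImplicit false

open PowerSeries
open scoped TensorProduct

namespace Pool.Agent.Lib.MP_86e60f_al.Fp

theorem IsSer.exists_basis_mon {k : Type} [CommRing k] {C B : Type} [CommRing C] [CommRing B]
    {iC : C →+* k⟦X⟧} {iB : B →+* k⟦X⟧} {S S' : AddSubmonoid ℕ} [Algebra C B]
    (hC : IsSer iC S) (hB : IsSer iB S') (hj : ∀ c, iB (algebraMap C B c) = iC c)
    {ι : Type} [Fintype ι] (w : ι → ℕ) (x : ι → B) (hx : ∀ i, iB (x i) = X ^ w i)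
    (hex : ∀ m ∈ S', ∃ i, ∃ s ∈ S, m = s + w i)
    (hun : ∀ i i', ∀ s ∈ S, ∀ s' ∈ S, s + w i = s' + w i' → i = i') :
    ∃ b : Module.Basis ι C B, ∀ i, b i = x i := by
  classical
  have h0 : ∀ (g : ι → C) m, coeff m (iB (∑ i, g i • x i)) =
      ∑ i, if w i ≤ m then coeff (m - w i) (iC (g i)) else 0 := fun g m => by
    rw [map_sum, map_sum]
    refine Finset.sum_congr rfl fun i _ => ?_
    rw [Algebra.smul_def, map_mul, hj, hx, coeff_mul_X_pow']
  have h1 : ∀ (g : ι → C) (j : ι), ∀ s ∈ S,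
      coeff (s + w j) (iB (∑ i, g i • x i)) = coeff s (iC (g j)) := fun g j s hs => by
    rw [h0, Finset.sum_eq_single j, if_pos (Nat.le_add_left _ _), Nat.add_sub_cancel]
    · intro i _ hi
      split_ifs with h
      · exact hC.supp _ _ fun h2 => hi (hun i j _ h2 s hs (by omega))
      · rfl
    · intro h; exact absurd (Finset.mem_univ _) h
  refine ⟨Module.Basis.mk (v := x)
    (Fintype.linearIndependent_iff.2 fun g hg i => hC.inj (PowerSeries.ext fun s => ?_))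
    fun y _ => ?_, fun i => Module.Basis.mk_apply _ _ i⟩
  · by_cases hs : s ∈ S
    · rw [← h1 g i s hs, hg]; simp
    · rw [hC.supp _ _ hs]; simp
  · choose g hg using fun j : ι => hC.surj
      (PowerSeries.mk fun s => if s ∈ S then coeff (s + w j) (iB y) else 0)
      fun m hm => by rw [coeff_mk, if_neg hm]
    refine (Submodule.mem_span_range_iff_exists_fun C).2
      ⟨g, hB.inj (PowerSeries.ext fun m => ?_)⟩
    by_cases hm : m ∈ S'
    · obtain ⟨j, s, hs, rfl⟩ := hex m hm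
      rw [h1 g j s hs, hg, coeff_mk, if_pos hs]
    · rw [hB.supp _ _ hm, hB.supp _ _ hm]

theorem exists_apery (S : AddSubmonoid ℕ) {n : ℕ} (hn : n ≠ 0) :
    ∃ w : {r : Fin n // ∃ s, s ∈ S ∧ s % n = r} → ℕ, (∀ i, w i ∈ S) ∧
      (∀ m ∈ S, ∃ i, ∃ s ∈ AddSubmonoid.closure ({n} : Set ℕ), m = s + w i) ∧
      (∀ i i', ∀ s ∈ AddSubmonoid.closure ({n} : Set ℕ),
        ∀ s' ∈ AddSubmonoid.closure ({n} : Set ℕ), s + w i = s' + w i' → i = i') := by
  classical
  have h0 : ∀ m, m ∈ AddSubmonoid.closure ({n} : Set ℕ) ↔ n ∣ m := fun m => by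
    rw [AddSubmonoid.mem_closure_singleton]
    exact ⟨fun ⟨a, ha⟩ => ⟨a, by rw [← ha, smul_eq_mul, mul_comm]⟩,
      fun ⟨a, ha⟩ => ⟨a, by rw [ha, smul_eq_mul, mul_comm]⟩⟩
  refine ⟨fun i => Nat.find i.2, fun i => (Nat.find_spec i.2).1, fun m hm => ?_,
    fun i i' s hs s' hs' h => ?_⟩
  · let i : {r : Fin n // ∃ s, s ∈ S ∧ s % n = r} :=
      ⟨⟨m % n, Nat.mod_lt _ (Nat.pos_of_ne_zero hn)⟩, m, hm, rfl⟩
    have h1 : Nat.find i.2 ≤ m := Nat.find_min' i.2 ⟨hm, rfl⟩
    have h2 : Nat.find i.2 % n = m % n := (Nat.find_spec i.2).2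
    exact ⟨i, m - Nat.find i.2, (h0 _).2 ((Nat.modEq_iff_dvd' h1).1 h2),
      (Nat.sub_add_cancel h1).symm⟩
  · obtain ⟨a, rfl⟩ := (h0 _).1 hs
    obtain ⟨a', rfl⟩ := (h0 _).1 hs'
    have h1 : Nat.find i.2 % n = i.1 := (Nat.find_spec i.2).2
    have h2 : Nat.find i'.2 % n = i'.1 := (Nat.find_spec i'.2).2
    have h3 := congrArg (· % n) h
    simp only [Nat.mul_add_mod] at h3
    exact Subtype.ext (Fin.ext (by rw [← h1, ← h2, h3]))

theorem series_faithfullyFlat (k K : Type) [Field k] [Field K] [Algebra k K] :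
    Module.FaithfullyFlat k⟦X⟧ K⟦X⟧ := by
  have hinj : Function.Injective (algebraMap k⟦X⟧ K⟦X⟧) :=
    PowerSeries.map_injective (algebraMap k K) (algebraMap k K).injective
  have : FaithfulSMul k⟦X⟧ K⟦X⟧ := (faithfulSMul_iff_algebraMap_injective _ _).2 hinj
  have : Module.IsTorsionFree k⟦X⟧ K⟦X⟧ := inferInstance
  have : Module.Flat k⟦X⟧ K⟦X⟧ := inferInstance
  have : IsLocalHom (algebraMap k⟦X⟧ K⟦X⟧) := PowerSeries.map.isLocalHom (algebraMap k K)
  exact Module.FaithfullyFlat.of_flat_of_isLocalHom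

theorem faithfullyFlat_of_bases {V V' B B' : Type} [CommRing V] [CommRing V'] [CommRing B]
    [CommRing B'] [Algebra V V'] [Algebra V B] [Algebra V' B'] [Algebra B B'] [Algebra V B']
    [IsScalarTower V V' B'] [IsScalarTower V B B'] [Module.FaithfullyFlat V V'] {ι : Type}
    (b : Module.Basis ι V B) (b' : Module.Basis ι V' B')
    (h : ∀ i, algebraMap B B' (b i) = b' i) : Module.FaithfullyFlat B B' := by
  have hbc : IsBaseChange V' (IsScalarTower.toAlgHom V B B').toLinearMap := by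
    refine IsBaseChange.of_equiv ((Algebra.TensorProduct.basis V' b).equiv b' (Equiv.refl _)) ?_
    have h1 : (((Algebra.TensorProduct.basis V' b).equiv b' (Equiv.refl _)).toLinearMap.restrictScalars
        V).comp (TensorProduct.mk V V' B 1) = (IsScalarTower.toAlgHom V B B').toLinearMap := by
      refine b.ext fun i => ?_
      change ((Algebra.TensorProduct.basis V' b).equiv b' (Equiv.refl _)) (1 ⊗ₜ b i) =
        algebraMap B B' (b i)
      rw [← Algebra.TensorProduct.basis_apply, Module.Basis.equiv_apply, h]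
      rfl
    exact fun x => LinearMap.congr_fun h1 x
  have : Algebra.IsPushout V B V' B' := (Algebra.IsPushout.mk hbc).symm
  exact Module.FaithfullyFlat.of_linearEquiv B (B ⊗[V] V')
    (Algebra.IsPushout.equiv V B V' B').symm.toLinearEquiv

theorem IsSer.faithfullyFlat {k K : Type} [Field k] [Field K] [Algebra k K] {B B' : Type}
    [CommRing B] [CommRing B'] [Algebra B B'] {iB : B →+* k⟦X⟧} {iB' : B' →+* K⟦X⟧}
    {S : AddSubmonoid ℕ} (hB : IsSer iB S) (hB' : IsSer iB' S)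
    (hj : ∀ b, iB' (algebraMap B B' b) = PowerSeries.map (algebraMap k K) (iB b)) {n : ℕ}
    (hn : n ≠ 0) (hS : n ∈ S) : Module.FaithfullyFlat B B' := by
  classical
  have hle : AddSubmonoid.closure ({n} : Set ℕ) ≤ S :=
    AddSubmonoid.closure_le.2 (Set.singleton_subset_iff.2 hS)
  obtain ⟨j, hjV⟩ := (isSer_expand (k := k) hn).exists_hom hB hle
  obtain ⟨j', hjV'⟩ := (isSer_expand (k := K) hn).exists_hom hB' hle
  obtain ⟨w, hw, hex, hun⟩ := exists_apery S hn
  choose x hx using fun i => hB.exists_pow (hw i)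
  have := series_faithfullyFlat k K
  have hcomm : ∀ c : k⟦X⟧, j' (algebraMap k⟦X⟧ K⟦X⟧ c) = algebraMap B B' (j c) := fun c => by
    refine hB'.inj ?_
    rw [hjV', hj, hjV]
    exact (PowerSeries.map_expand n hn (algebraMap k K) c).symm
  let a1 : Algebra k⟦X⟧ B := j.toAlgebra
  let a2 : Algebra K⟦X⟧ B' := j'.toAlgebra
  let a3 : Algebra k⟦X⟧ B' := ((algebraMap B B').comp j).toAlgebra
  have : IsScalarTower k⟦X⟧ B B' := IsScalarTower.of_algebraMap_eq fun _ => rfl
  have : IsScalarTower k⟦X⟧ K⟦X⟧ B' := IsScalarTower.of_algebraMap_eq fun c => (hcomm c).symm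
  obtain ⟨b, hb⟩ := (isSer_expand (k := k) hn).exists_basis_mon hB hjV w x hx hex hun
  obtain ⟨b', hb'⟩ := (isSer_expand (k := K) hn).exists_basis_mon hB' hjV' w
    (fun i => algebraMap B B' (x i)) (fun i => by rw [hj, hx, map_pow, map_X]) hex hun
  exact faithfullyFlat_of_bases b b' fun i => by rw [hb, hb']

theorem ext_baseChange {B B' : Type} [CommRing B] [CommRing B'] [Algebra B B'] [Module.Flat B B']
    [IsNoetherianRing B] {K F M : Type} [AddCommGroup K] [Module B K] [Module.Finite B K]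
    [AddCommGroup F] [Module B F] [AddCommGroup M] [Module B M] (ι : K →ₗ[B] F)
    (h : ∀ φ : K →ₗ[B] M, ∃ θ : F →ₗ[B] M, ∀ v, θ (ι v) = φ v)
    (φ : B' ⊗[B] K →ₗ[B'] B' ⊗[B] M) :
    ∃ θ : B' ⊗[B] F →ₗ[B'] B' ⊗[B] M, ∀ v, θ (ι.baseChange B' v) = φ v := by
  have : Module.FinitePresentation B K := Module.finitePresentation_of_finite B K
  refine (Module.FinitePresentation.isBaseChange_map B K M B').inductionOn φ
    (fun φ => ∃ θ : B' ⊗[B] F →ₗ[B'] B' ⊗[B] M, ∀ v, θ (ι.baseChange B' v) = φ v)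
    ⟨0, fun _ => rfl⟩ (fun ψ => ?_) (fun s ψ hψ => ?_) (fun ψ χ hψ hχ => ?_)
  · obtain ⟨θ, hθ⟩ := h ψ
    have h1 : θ ∘ₗ ι = ψ := LinearMap.ext hθ
    refine ⟨θ.baseChange B', fun v => ?_⟩
    change (θ.baseChange B' ∘ₗ ι.baseChange B') v = ψ.baseChange B' v
    rw [← LinearMap.baseChange_comp, h1]
  · obtain ⟨θ, hθ⟩ := hψ
    exact ⟨s • θ, fun v => by rw [LinearMap.smul_apply, LinearMap.smul_apply, hθ]⟩
  · obtain ⟨θ, hθ⟩ := hψ
    obtain ⟨η, hη⟩ := hχ
    exact ⟨θ + η, fun v => by rw [LinearMap.add_apply, LinearMap.add_apply, hθ, hη]⟩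

end Pool.Agent.Lib.MP_86e60f_al.Fp
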