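import Mathlib
import Pool.Agent.Lib.MP_86e60f_al.Fs.Rigid

set_option autoImplicit false

open Polynomial Pool.Agent.Lib.MP_86e60f_al.Fs
open scoped TensorProduct

namespace Pool.Agent.Lib.MP_86e60f_al.Fp

variable {C B : Type} [CommRing C] [CommRing B] [Algebra C B] {x : B} {e : ℕ} {h : C}
  (b : Module.Basis (Fin (e + 1)) C B) (hb : ∀ i, b i = x ^ (i : ℕ))
  (hx : x ^ (e + 1) = algebraMap C B h)

include hb in
theorem lead {M : Type} [AddCommGroup M] [Module C M] (t : M →ₗ[C] M) (ω : ℕ → C)
    (hω : ∀ j, IsUnit (ω j)) (s : Finset ℕ) (hs : s.card = e) (m : M)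
    (hm : aeval (t.baseChange B) (∏ j ∈ s, (X - Polynomial.C (algebraMap C B (ω j) * x)))
      ((1 : B) ⊗ₜ[C] m) = 0) : m = 0 := by
  classical
  let F : ℕ → Submodule C (B ⊗[C] M) := fun d =>
    Submodule.span C {w | ∃ l < d, ∃ m, w = (x ^ l) ⊗ₜ m}
  have h1 : ∀ d l m, l < d → (x ^ l) ⊗ₜ[C] m ∈ F d := fun d l m hl =>
    Submodule.subset_span ⟨l, hl, m, rfl⟩
  have h0 : ∀ (a : C) l (m : M), (algebraMap C B a * x) • (x ^ l) ⊗ₜ[C] m =
      a • (x ^ (l + 1)) ⊗ₜ[C] m := fun a l m => by
    rw [mul_smul, algebraMap_smul, TensorProduct.smul_tmul' x, smul_eq_mul, ← pow_succ']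
  have h2 : ∀ (a : C) d, ∀ w ∈ F d, t.baseChange B w - (algebraMap C B a * x) • w ∈ F (d + 1) := by
    intro a d w hw
    induction hw using Submodule.span_induction with
    | mem w hw =>
      obtain ⟨l, hl, m, rfl⟩ := hw
      rw [LinearMap.baseChange_tmul, h0]
      exact sub_mem (h1 _ _ _ (by omega)) (Submodule.smul_mem _ _ (h1 _ _ _ (by omega)))
    | zero => simp
    | add v w _ _ hv hw => rw [map_add, smul_add, add_sub_add_comm]; exact add_mem hv hw
    | smul c w _ hw =>
      rw [LinearMap.map_smul_of_tower, smul_comm]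
      convert Submodule.smul_mem _ c hw using 1
      exact (smul_sub c (t.baseChange B w) _).symm
  have h3 : ∀ s : Finset ℕ, ∃ a : C, IsUnit a ∧
      aeval (t.baseChange B) (∏ j ∈ s, (X - Polynomial.C (algebraMap C B (ω j) * x)))
        ((1 : B) ⊗ₜ[C] m) - a • (x ^ s.card) ⊗ₜ[C] m ∈ F s.card := fun s => by
    induction s using Finset.induction_on with
    | empty => exact ⟨1, isUnit_one, by simp⟩
    | insert j s hj ih =>
      obtain ⟨a, ha, ih⟩ := ih
      refine ⟨-(a * ω j), (ha.mul (hω j)).neg, ?_⟩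
      have h4 := add_mem (h2 (ω j) _ _ ih)
        (Submodule.smul_mem _ a (h1 _ _ (t m) (Nat.lt_succ_self s.card)))
      rw [Finset.prod_insert hj, Finset.card_insert_of_notMem hj, map_mul, Module.End.mul_apply]
      convert h4 using 1
      rw [map_sub, aeval_X, aeval_C, LinearMap.sub_apply, Module.algebraMap_end_apply, map_sub,
        smul_sub, LinearMap.map_smul_of_tower, LinearMap.baseChange_tmul, smul_comm _ a, h0,
        smul_smul, _root_.neg_smul (a * ω j) ((x ^ (s.card + 1)) ⊗ₜ[C] m)]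
      abel
  obtain ⟨a, ha, h4⟩ := h3 s
  rw [hm, hs, zero_sub] at h4
  let Λ : B ⊗[C] M →ₗ[C] M :=
    (TensorProduct.lid C M).toLinearMap ∘ₗ (b.coord (Fin.last e)).rTensor M
  have h5 : F e ≤ LinearMap.ker Λ := Submodule.span_le.2 (by
    rintro _ ⟨l, hl, m, rfl⟩
    simp [Λ, -Module.Basis.coord_apply, coord_pow b hb (show l < e + 1 by omega), hl.ne])
  have h6 := h5 h4
  simp only [LinearMap.mem_ker, map_neg, map_smul, neg_eq_zero, ha.smul_eq_zero] at h6
  simpa [Λ, -Module.Basis.coord_apply, coord_pow b hb (Nat.lt_succ_self e)] using h6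

include hb hx in
/-- A module without self-extensions that is stable under the covering group is relatively
projective, and has no self-extensions over the smaller ring (any characteristic). -/
theorem step {M : Type} [AddCommGroup M] [Module B M] [Module C M]
    [IsScalarTower C B M] (H : Lf B M M) (ω : ℕ → C) (h1 : ∀ i, ω i ^ (e + 1) = 1)
    (hω : (X ^ (e + 1) - Polynomial.C (x ^ (e + 1)) : B[X]) =
      ∏ j ∈ Finset.range (e + 1), (X - Polynomial.C (algebraMap C B (ω j) * x)))
    (τ : ℕ → M →ₗ[C] M) (hτb : ∀ i, Function.Bijective (τ i))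
    (hτx : ∀ i m, τ i (x • m) = ω i • x • τ i m) :
    Lf C M M ∧ (Module.Projective C M → Module.Projective B M) := by
  classical
  let T : Module.End B (B ⊗[C] M) := ((LinearMap.lsmul B M x).restrictScalars C).baseChange B
  have hT : ∀ a m, T (a ⊗ₜ m) = a ⊗ₜ (x • m) := fun a m => rfl
  let z : ℕ → B := fun i => algebraMap C B (ω i) * x
  let N : ℕ → Module.End B (B ⊗[C] M) := fun i => aeval T (X - Polynomial.C (z i))
  have hN : ∀ i w, N i w = T w - z i • w := fun i w => by
    simp [N, Module.algebraMap_end_apply]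
  let P : ℕ → Module.End B (B ⊗[C] M) := fun i =>
    aeval T (∏ j ∈ Finset.range i, (X - Polynomial.C (z j)))
  have hP0 : ∀ w, P 0 w = w := fun w => by simp [P]
  have hP1 : ∀ i w, P (i + 1) w = P i (N i w) := fun i w => by
    simp only [P, N, Finset.prod_range_succ, map_mul, Module.End.mul_apply]
  have hPe : ∀ w, P (e + 1) w = 0 := fun w => by
    have h2 : ∀ (k : ℕ) a m, (T ^ k) (a ⊗ₜ m) = a ⊗ₜ (x ^ k • m) := fun k => by
      induction k with
      | zero => simp
      | succ k ih => intro a m; rw [pow_succ, Module.End.mul_apply, hT, ih, smul_smul, ← pow_succ]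
    simp only [P, z]
    rw [← hω, map_sub, aeval_C, hx]
    simp only [map_pow, aeval_X, LinearMap.sub_apply, Module.algebraMap_end_apply, sub_eq_zero]
    induction w using TensorProduct.induction_on with
    | zero => simp
    | tmul a m => rw [h2, hx, algebraMap_smul, algebraMap_smul, TensorProduct.tmul_smul]
    | add s t hs ht => rw [map_add, smul_add, hs, ht]
  have hτi : ∀ (i : ℕ) m, τ i (x • m) = z i • τ i m := fun i m => by
    rw [hτx, mul_smul, algebraMap_smul]
  let μ : ℕ → B ⊗[C] M →ₗ[B] M := fun i => (τ i).liftBaseChange B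
  have hμ : ∀ i a m, μ i (a ⊗ₜ m) = a • τ i m := fun i a m => rfl
  have hμT : ∀ i w, μ i (T w) = z i • μ i w := fun i w => by
    induction w using TensorProduct.induction_on with
    | zero => simp
    | tmul a m => rw [hT, hμ, hμ, hτi, smul_comm]
    | add s t hs ht => simp only [map_add, smul_add, hs, ht]
  have hμs : ∀ i, Function.Surjective (μ i) := fun i m => by
    obtain ⟨m, rfl⟩ := (hτb i).2 m
    exact ⟨1 ⊗ₜ m, by rw [hμ, one_smul]⟩
  have hμN : ∀ i w, μ i (N i w) = 0 := fun i w => by
    rw [hN, map_sub, hμT, map_smul, sub_self]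
  have h3 : ∀ i (w : B ⊗[C] M), ∃ m' : M, w - 1 ⊗ₜ m' ∈ LinearMap.range (N i) := fun i w => by
    have h2 : ∀ (k : ℕ) (m : M), ∃ m' : M, (x ^ k) ⊗ₜ[C] m - 1 ⊗ₜ m' ∈ LinearMap.range (N i) := by
      intro k
      induction k with
      | zero => intro m; exact ⟨m, by simp⟩
      | succ k ih =>
        intro m
        obtain ⟨m', hm'⟩ := ih (x • ω i ^ e • m)
        refine ⟨m', ?_⟩
        have h3 : N i ((x ^ k) ⊗ₜ (ω i ^ e • m)) =
            (x ^ k) ⊗ₜ (x • ω i ^ e • m) - (x ^ (k + 1)) ⊗ₜ m := by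
          rw [hN, hT]
          congr 1
          rw [← TensorProduct.smul_tmul, TensorProduct.smul_tmul', smul_eq_mul, Algebra.smul_def]
          congr 1
          simp only [z]
          rw [mul_mul_mul_comm, ← map_mul, ← pow_succ', h1, map_one, one_mul, pow_succ']
        have h4 := sub_mem hm' (LinearMap.mem_range_self (N i) ((x ^ k) ⊗ₜ (ω i ^ e • m)))
        rw [h3] at h4
        convert h4 using 1
        abel
    induction w using TensorProduct.induction_on with
    | zero => exact ⟨0, by simp⟩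
    | tmul a m =>
      choose f hf using fun k : Fin (e + 1) => h2 k (b.repr a k • m)
      refine ⟨∑ k, f k, ?_⟩
      rw [← b.sum_repr a, TensorProduct.sum_tmul, TensorProduct.tmul_sum,
        ← Finset.sum_sub_distrib]
      refine Submodule.sum_mem _ fun k _ => ?_
      rw [TensorProduct.smul_tmul, hb]
      exact hf k
    | add s t hs ht =>
      obtain ⟨m1, h1⟩ := hs
      obtain ⟨m2, h2⟩ := ht
      exact ⟨m1 + m2, by rw [TensorProduct.tmul_add, add_sub_add_comm]; exact add_mem h1 h2⟩
  have hker : ∀ i w, μ i w = 0 → w ∈ LinearMap.range (N i) := fun i w hw => by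
    obtain ⟨m', w', hw'⟩ := h3 i w
    have h4 := congrArg (μ i) hw'
    rw [hμN, map_sub, hw, hμ, one_smul, zero_sub, eq_comm, neg_eq_zero] at h4
    rw [(injective_iff_map_eq_zero _).1 (hτb i).1 m' h4, TensorProduct.tmul_zero, sub_zero] at hw'
    exact ⟨w', hw'⟩
  have hinj : ∀ i < e + 1, ∀ w, P i w = 0 → μ i w = 0 := fun i hi w hw => by
    obtain ⟨m', w', hw'⟩ := h3 i w
    have hi' := Finset.mem_range.2 hi
    let R := aeval T (∏ j ∈ (Finset.range (e + 1)).erase i, (X - Polynomial.C (z j)))
    have h4 : R w = 0 := by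
      have hs : Finset.range i ⊆ (Finset.range (e + 1)).erase i := fun j hj => by
        simp only [Finset.mem_erase, Finset.mem_range] at hj ⊢; omega
      simp only [R]
      rw [← Finset.prod_sdiff hs, map_mul, Module.End.mul_apply, show aeval T _ w = 0 from hw,
        map_zero]
    have h5 : R (N i w') = 0 := by
      rw [← hPe w']
      simp only [R, N, P]
      rw [← Finset.prod_erase_mul _ _ hi', map_mul (aeval T), Module.End.mul_apply]
    rw [hw', map_sub, h4, zero_sub, neg_eq_zero] at h5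
    rw [lead b hb _ ω (fun j => IsUnit.of_pow_eq_one (h1 j) (Nat.succ_ne_zero e)) _
      (by rw [Finset.card_erase_of_mem hi', Finset.card_range, Nat.add_sub_cancel]) m' h5,
      TensorProduct.tmul_zero, sub_zero] at hw'
    rw [← hw', hμN]
  have key : ∀ k i, i + k = e + 1 → Lf B M (LinearMap.range (P i)) := fun k => by
    induction k with
    | zero =>
      intro i hi
      refine Lf.zero fun v => ?_
      obtain ⟨_, w, rfl⟩ := v
      exact Subtype.ext (by rw [show i = e + 1 by omega]; exact hPe w)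
    | succ k ih =>
      intro i hi
      obtain ⟨β, hβ⟩ := exists_factor_range (P i) (μ i) (hinj i (by omega))
      have hle : LinearMap.range (P (i + 1)) ≤ LinearMap.range (P i) := by
        rintro _ ⟨w, rfl⟩
        exact ⟨_, (hP1 i w).symm⟩
      refine Lf.of_exact (Submodule.inclusion hle) β (Submodule.inclusion_injective hle)
        (fun m => ?_) (fun v => ?_) (ih (i + 1) (by omega)) H
      · obtain ⟨w, rfl⟩ := hμs i m
        exact ⟨_, hβ w⟩
      · obtain ⟨w, rfl⟩ := LinearMap.surjective_rangeRestrict (P i) v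
        rw [hβ]
        constructor
        · intro hw
          obtain ⟨w', rfl⟩ := hker i w hw
          exact ⟨⟨_, w', rfl⟩, Subtype.ext (hP1 i w')⟩
        · rintro ⟨⟨_, w', rfl⟩, hw'⟩
          have h4 := hinj i (by omega) (w - N i w') (by
            rw [map_sub, ← hP1, sub_eq_zero]; exact (congrArg Subtype.val hw').symm)
          rwa [map_sub, hμN, sub_zero] at h4
  refine ⟨Lf.descend b hb hx (Lf.of_exact (LinearMap.range (P 0)).subtype
    (0 : _ →ₗ[B] PUnit) (Submodule.injective_subtype _) (fun _ => ⟨0, rfl⟩)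
    (fun w => ⟨fun _ => ⟨⟨w, w, hP0 w⟩, rfl⟩, fun _ => rfl⟩) (key (e + 1) 0 (by omega))
    (Lf.zero fun _ => rfl)), fun hp => ?_⟩
  obtain ⟨ψ, hψ⟩ := key e 1 (by omega) _ _ (LinearMap.range (P 1)).subtype (μ 0)
    (Submodule.injective_subtype _) (hμs 0) (fun w => ⟨fun hw => by
      obtain ⟨w', rfl⟩ := hker 0 w hw
      exact ⟨⟨_, w', rfl⟩, (hP1 0 w').trans (hP0 _)⟩, by
      rintro ⟨⟨_, w', rfl⟩, rfl⟩
      show μ 0 (P (0 + 1) w') = 0
      rw [hP1, hP0, hμN]⟩) LinearMap.id
  exact Module.Projective.of_split ψ (μ 0) (LinearMap.ext hψ)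

/-- The factorisation of `X ^ n - x ^ n` over an algebraically closed field of constants. -/
theorem exists_roots (k : Type) [Field k] [IsAlgClosed k] (e : ℕ) :
    ∃ ω : ℕ → k, (∀ i, ω i ^ (e + 1) = 1) ∧ ∀ (B : Type) [CommRing B] [IsDomain B] (c : k →+* B) (x : B),
     
      (X ^ (e + 1) - Polynomial.C (x ^ (e + 1)) : B[X]) =
        ∏ j ∈ Finset.range (e + 1), (X - Polynomial.C (c (ω j) * x)) := by
  have hm : (X ^ (e + 1) - Polynomial.C 1 : k[X]).Monic := monic_X_pow_sub_C _ (Nat.succ_ne_zero e)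
  have hs := IsAlgClosed.splits (X ^ (e + 1) - Polynomial.C 1 : k[X])
  have h1 := hs.eq_prod_roots_of_monic hm
  have h2 := hs.natDegree_eq_card_roots
  rw [natDegree_X_pow_sub_C] at h2
  obtain ⟨l, hl⟩ := Quot.exists_rep (X ^ (e + 1) - Polynomial.C 1 : k[X]).roots
  have hl' : (X ^ (e + 1) - Polynomial.C 1 : k[X]).roots = (l : Multiset k) := hl.symm
  rw [hl', Multiset.coe_card] at h2
  have h3 : (X ^ (e + 1) - Polynomial.C 1 : k[X]) =
      ∏ j ∈ Finset.range (e + 1), (X - Polynomial.C (l.getD j 1)) := by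
    rw [h1, hl', Multiset.map_coe, Multiset.prod_coe, h2, Finset.prod_range,
      ← Fin.prod_univ_fun_getElem]
    exact Finset.prod_congr rfl fun j _ => by simp
  refine ⟨fun j => l.getD j 1, fun j => ?_, fun B _ _ c x => ?_⟩
  · show l.getD j 1 ^ (e + 1) = 1
    by_cases hj : j < l.length
    · have h4 : l[j] ∈ (X ^ (e + 1) - Polynomial.C 1 : k[X]).roots := by
        rw [hl']; exact List.getElem_mem hj
      rw [List.getD_eq_getElem _ _ hj]
      simpa [sub_eq_zero] using ((mem_roots hm.ne_zero).1 h4)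
    · rw [List.getD_eq_default _ _ (not_lt.1 hj), one_pow]
  · have h4 : ∀ s : Finset ℕ, (∏ j ∈ s, (X - Polynomial.C (c (l.getD j 1)))).scaleRoots x =
        ∏ j ∈ s, (X - Polynomial.C (c (l.getD j 1) * x)) := fun s => by
      induction s using Finset.induction_on with
      | empty => simp
      | insert j s hj ih =>
        rw [Finset.prod_insert hj, Finset.prod_insert hj, mul_scaleRoots_of_noZeroDivisors, ih,
          X_sub_C_scaleRoots]
    have h5 := congrArg (Polynomial.map c) h3
    simp only [Polynomial.map_sub, Polynomial.map_pow, map_X, map_C, map_one c,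
      Polynomial.map_prod] at h5
    rw [← h4, ← h5]
    ext i
    rw [coeff_scaleRoots, natDegree_X_pow_sub_C, coeff_sub, coeff_sub, coeff_X_pow, coeff_C,
      coeff_C]
    split_ifs with h6 h7 h7
    · omega
    · simp [h6]
    · simp [h7]
    · simp

end Pool.Agent.Lib.MP_86e60f_al.Fp
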