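import Mathlib
import Pool.Agent.Lib.MP_86e60f_al.Fp.Step
import Pool.Agent.Lib.MP_86e60f_al.Fp.Ser

set_option autoImplicit false

open PowerSeries Pool.Agent.Lib.MP_86e60f_al.Fs

namespace Pool.Agent.Lib.MP_86e60f_al.Fp

variable {k : Type} [Field k] {C B : Type} [CommRing C] [CommRing B] {iC : C →+* k⟦X⟧}
  {iB : B →+* k⟦X⟧} {S S' : AddSubmonoid ℕ}

/-- The properties that climb the tower of semigroup rings. -/
structure Good (n : ℕ) (B : Type) [CommRing B] [Algebra k⟦X⟧ B] (iB : B →+* k⟦X⟧) : Prop where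
  gor : Gor B (algebraMap k⟦X⟧ B X)
  fin : Module.Finite k⟦X⟧ B
  lin : ∀ (M : Type) [AddCommGroup M] [Module B M] [Module k⟦X⟧ M] [IsScalarTower k⟦X⟧ B M]
    (σ : M →ₗ[k⟦X⟧] M), (∀ (x : B) (h : ℕ), iB x = X ^ h → ∀ m, σ (x • m) = x • σ m) →
    ∀ (a : B) m, σ (a • m) = a • σ m
  proj : IsAlgClosed k → ∀ (M : Type) [AddCommGroup M] [Module B M] [Module k⟦X⟧ M]
    [IsScalarTower k⟦X⟧ B M] [Module.Finite k⟦X⟧ M], Lf B M M → IsSMulRegular M (X : k⟦X⟧) →
    (∀ ζ : k, ζ ^ n = 1 → ∃ τ : M →ₗ[k⟦X⟧] M, Function.Bijective τ ∧ ∀ (x : B) (h : ℕ),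
      iB x = X ^ h → ∀ m, τ (x • m) = (PowerSeries.C (ζ ^ h) : k⟦X⟧) • x • τ m) →
    Module.Projective B M

theorem good_base {n : ℕ} (hn : n ≠ 0) [Algebra k⟦X⟧ B]
    (hB : IsSer iB (AddSubmonoid.closure {n})) (hV : ∀ v, iB (algebraMap _ B v) = expand n hn v) :
    Good n B iB := by
  obtain ⟨b, hb⟩ := (isSer_expand hn).exists_basis hB hV (x := 1) (n := 0) (e := 0) (by simp)
    (fun m hm => ⟨0, by omega, m, hm, by simp⟩) fun j _ j' _ _ _ _ _ _ => by omega
  have hx : (1 : B) ^ (0 + 1) = algebraMap k⟦X⟧ B 1 := by simp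
  refine ⟨(gor_powerSeries k).step b hb hx, Module.Finite.of_basis b,
    fun M _ _ _ _ σ _ => linear_of_comm b hb σ (by simp), fun _ M _ _ _ _ _ H hM _ => ?_⟩
  have := free_of_reg M hM
  exact (step b hb hx H (fun _ => 1) (by simp) (by simp) (fun _ => LinearMap.id)
    (fun _ => Function.bijective_id) (by simp)).2 inferInstance

theorem Good.up {n0 n e : ℕ} (hn : n0 ≠ 0) [Algebra k⟦X⟧ C] [Algebra k⟦X⟧ B]
    (hC : IsSer iC S) (hB : IsSer iB S') (hle : S ≤ S') (G : Good n0 C iC)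
    (hVC : ∀ v, iC (algebraMap _ C v) = expand n0 hn v)
    (hVB : ∀ v, iB (algebraMap _ B v) = expand n0 hn v) (h0 : n0 ∈ S) (hnS : n ∈ S')
    (he : n * (e + 1) ∈ S) (hex : ∀ m ∈ S', ∃ s ∈ S, ∃ a, m = s + n * a)
    (hun : ∀ j < e + 1, ∀ j' < e + 1, ∀ s ∈ S, ∀ s' ∈ S, s + n * j = s' + n * j' → j = j')
    (hrt : IsAlgClosed k → ∀ ω : k, ω ^ (e + 1) = 1 →
      ∃ ζ : k, (∀ s ∈ S, ζ ^ s = 1) ∧ ζ ^ n = ω) : Good n0 B iB := by
  obtain ⟨j, hj⟩ := hC.exists_hom hB hle
  let _ := j.toAlgebra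
  have hj' : ∀ c, iB (algebraMap C B c) = iC c := hj
  have : IsScalarTower k⟦X⟧ C B :=
    IsScalarTower.of_algebraMap_eq fun v => hB.inj (by rw [hj', hVC, hVB])
  obtain ⟨x, hx⟩ := hB.exists_pow hnS
  obtain ⟨y, hy⟩ := hC.exists_pow he
  have hxy : x ^ (e + 1) = algebraMap C B y := hB.inj (by rw [hj', hy, map_pow, hx, pow_mul])
  obtain ⟨b, hb⟩ := hC.exists_basis hB hj' hx (e := e) (fun m hm => by
      obtain ⟨s, hs, a, rfl⟩ := hex m hm
      refine ⟨a % (e + 1), Nat.mod_lt _ (Nat.succ_pos e), s + (a / (e + 1)) • (n * (e + 1)),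
        add_mem hs (nsmul_mem he _), ?_⟩
      conv_lhs => rw [← Nat.div_add_mod a (e + 1)]
      rw [smul_eq_mul]; ring) hun
  have := hB.inj.isDomain
  have := G.fin
  have := Module.Finite.of_basis b
  refine ⟨?_, Module.Finite.trans C B, fun M _ _ _ _ σ hσ => ?_,
    fun hk M _ _ _ _ _ H hM hτ => ?_⟩
  · rw [IsScalarTower.algebraMap_apply k⟦X⟧ C B]
    exact G.gor.step b hb hxy
  · let _ := Module.compHom M (algebraMap C B)
    have : IsScalarTower C B M := IsScalarTower.of_compHom C B M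
    have : IsScalarTower k⟦X⟧ C M := IsScalarTower.to₁₂₄ k⟦X⟧ C B M
    exact linear_of_comm b hb
      { toFun := σ, map_add' := σ.map_add
        map_smul' := G.lin M σ fun c h hc => hσ (algebraMap C B c) h ((hj' c).trans hc) }
      (hσ x n hx)
  · let _ := Module.compHom M (algebraMap C B)
    have : IsScalarTower C B M := IsScalarTower.of_compHom C B M
    have : IsScalarTower k⟦X⟧ C M := IsScalarTower.to₁₂₄ k⟦X⟧ C B M
    let c : k →+* C := (algebraMap k⟦X⟧ C).comp PowerSeries.C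
    obtain ⟨ω, hω, hω'⟩ := exists_roots k e
    choose ζ hζ hζ' using fun i => hrt hk (ω i) (hω i)
    choose τ hτb hτx using fun i => hτ (ζ i) (hζ i n0 h0)
    obtain ⟨h3, h4⟩ := step b hb hxy H (fun i => c (ω i))
      (fun i => by rw [← map_pow, hω, map_one]) (hω' B ((algebraMap C B).comp c) x)
      (fun i =>
        { toFun := τ i, map_add' := (τ i).map_add
          map_smul' := G.lin M (τ i) fun z h hz m => by
            have := hτx i (algebraMap C B z) h ((hj' z).trans hz) m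
            rwa [hζ i h (hC.mem_of_pow hz), map_one, one_smul] at this }) hτb
      fun i m => (hτx i x n hx m).trans (by rw [hζ']; exact (algebraMap_smul C _ _).symm)
    refine h4 (G.proj hk M h3 hM fun a ha => ?_)
    obtain ⟨σ, h5, h6⟩ := hτ a ha
    exact ⟨σ, h5, fun z h hz => h6 (algebraMap C B z) h ((hj' z).trans hz)⟩

theorem good_free (n : ℕ → ℕ) (hn : n 0 ≠ 0) (c : ℕ)
    (hfree : ∀ i < c, (Finset.range (i + 1)).gcd n / (Finset.range (i + 2)).gcd n * n (i + 1) ∈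
      AddSubmonoid.closure (n '' Set.Iic i)) :
    ∀ (B : Type) [CommRing B] [Algebra k⟦X⟧ B] (iB : B →+* k⟦X⟧),
      IsSer iB (AddSubmonoid.closure (n '' Set.Iic c)) →
      (∀ v, iB (algebraMap _ B v) = expand (n 0) hn v) → Good (n 0) B iB := by
  induction c with
  | zero =>
    intro B _ _ iB hB hV
    refine good_base hn ?_ hV
    rwa [show Set.Iic 0 = {0} from Set.Iic_bot, Set.image_singleton] at hB
  | succ c ih =>
    intro B _ _ iB hB hV
    let S := AddSubmonoid.closure (n '' Set.Iic c)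
    have h0 : n 0 ∈ S := AddSubmonoid.subset_closure ⟨0, Nat.zero_le c, rfl⟩
    obtain ⟨j, hj⟩ := (isSer_expand (k := k) hn).exists_hom (isSer_ser S)
      (AddSubmonoid.closure_le.2 (Set.singleton_subset_iff.2 h0))
    let _ := j.toAlgebra
    set d := (Finset.range (c + 1)).gcd n with hd
    have h1 : ∀ s ∈ S, d ∣ s := fun s hs => by
      induction hs using AddSubmonoid.closure_induction with
      | mem m hm =>
        obtain ⟨i, hi, rfl⟩ := hm
        exact Finset.gcd_dvd (Finset.mem_range.2 (Nat.lt_succ_of_le hi))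
      | zero => exact dvd_zero d
      | add a b _ _ ha hb => exact dvd_add ha hb
    have hd0 : 0 < d := Nat.pos_of_dvd_of_pos (h1 _ h0) (Nat.pos_of_ne_zero hn)
    have h2 : (Finset.range (c + 2)).gcd n = Nat.gcd d (n (c + 1)) := by
      rw [Finset.range_add_one, Finset.gcd_insert, Nat.gcd_comm]
      rfl
    have h3 := hfree c (Nat.lt_succ_self c)
    rw [h2] at h3
    have hg := Nat.gcd_pos_of_pos_left (n (c + 1)) hd0
    obtain ⟨e, he⟩ : ∃ e, d / Nat.gcd d (n (c + 1)) = e + 1 := Nat.exists_eq_succ_of_ne_zero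
      (Nat.div_pos (Nat.gcd_le_left _ hd0) hg).ne'
    rw [he] at h3
    refine Good.up hn (isSer_ser S) hB
      (AddSubmonoid.closure_mono (Set.image_mono (Set.Iic_subset_Iic.2 (Nat.le_succ c))))
      (ih (fun i hi => hfree i (by omega)) _ _ (isSer_ser S) hj) hj hV h0
      (AddSubmonoid.subset_closure ⟨c + 1, Set.mem_Iic.2 le_rfl, rfl⟩) (by rwa [mul_comm])
      (fun m hm => ?_) (fun i hi i' hi' s hs s' hs' h => ?_) fun _ ω hω => ?_
    · induction hm using AddSubmonoid.closure_induction with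
      | mem m hm =>
        obtain ⟨i, hi, rfl⟩ := hm
        rcases Nat.of_le_succ hi with h | rfl
        · exact ⟨n i, AddSubmonoid.subset_closure ⟨i, h, rfl⟩, 0, by simp⟩
        · exact ⟨0, zero_mem _, 1, by simp⟩
      | zero => exact ⟨0, zero_mem _, 0, by simp⟩
      | add a b _ _ ha hb =>
        obtain ⟨s, hs, u, rfl⟩ := ha
        obtain ⟨s', hs', u', rfl⟩ := hb
        exact ⟨s + s', add_mem hs hs', u + u', by ring⟩
    · have h4 : s ≡ s' [MOD d] := ((Nat.modEq_zero_iff_dvd.2 (h1 s hs)).trans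
        (Nat.modEq_zero_iff_dvd.2 (h1 s' hs')).symm)
      have h5 := (Nat.ModEq.add_left_cancel h4 (congrArg (· % d) h)).cancel_left_div_gcd hd0
      rw [he] at h5
      exact h5.eq_of_lt_of_lt hi hi'
    · have h4 := Nat.coprime_div_gcd_div_gcd hg
      rw [he] at h4
      obtain ⟨a, ha⟩ := exists_pow_eq_self_of_coprime
        (h4.symm.coprime_dvd_right (orderOf_dvd_of_pow_eq_one hω))
      obtain ⟨ζ, hζ⟩ := IsAlgClosed.exists_pow_nat_eq (ω ^ a) hg
      refine ⟨ζ, fun s hs => ?_, ?_⟩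
      · obtain ⟨q, rfl⟩ := h1 s hs
        rw [pow_mul, ← Nat.mul_div_cancel' (Nat.gcd_dvd_left d (n (c + 1))), pow_mul, hζ, he,
          pow_right_comm ω, hω, one_pow, one_pow]
      · rw [← Nat.mul_div_cancel' (Nat.gcd_dvd_right d (n (c + 1))), pow_mul, hζ, pow_right_comm,
          ha]

end Pool.Agent.Lib.MP_86e60f_al.Fp
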