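import Mathlib
import Pool.Agent.Lib.MP_86e60f_al.Fp.Flat
import Pool.Agent.Lib.MP_86e60f_al.Fp.Approx

set_option autoImplicit false

open PowerSeries
open scoped TensorProduct

namespace Pool.Agent.Lib.MP_86e60f_al.Fp

theorem IsSer.exists_map {k k' : Type} [CommRing k] [CommRing k'] {C B : Type} [CommRing C]
    [CommRing B] {iC : C →+* k⟦X⟧} {iB : B →+* k'⟦X⟧} {S : AddSubmonoid ℕ} (hC : IsSer iC S)
    (hB : IsSer iB S) (f : k →+* k') (a : k') :
    ∃ j : C →+* B, ∀ c, iB (j c) = rescale a (PowerSeries.map f (iC c)) := by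
  choose j hj using fun c => hB.surj (rescale a (PowerSeries.map f (iC c))) fun m hm => by
    rw [coeff_rescale, coeff_map, hC.supp c m hm, map_zero, mul_zero]
  exact ⟨{ toFun := j
           map_one' := hB.inj (by simp only [hj, map_one])
           map_mul' := fun a b => hB.inj (by simp only [hj, map_mul])
           map_zero' := hB.inj (by simp only [hj, map_zero])
           map_add' := fun a b => hB.inj (by simp only [hj, map_add]) }, hj⟩

theorem IsSer.finite {k : Type} [CommRing k] {B : Type} [CommRing B] [Algebra k⟦X⟧ B]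
    {iB : B →+* k⟦X⟧} {S : AddSubmonoid ℕ} (hB : IsSer iB S) {n : ℕ} (hn : n ≠ 0)
    (hV : ∀ v, iB (algebraMap _ B v) = expand n hn v) : Module.Finite k⟦X⟧ B := by
  obtain ⟨w, h1, h2, h3⟩ := exists_apery S hn
  choose x hx using fun i => hB.exists_pow (h1 i)
  classical
  obtain ⟨b, -⟩ := (isSer_expand hn).exists_basis_mon hB hV w x hx h2 h3
  exact Module.Finite.of_basis b

variable {k : Type} [Field k] {B : Type} [CommRing B] {iB : B →+* k⟦X⟧} {S : AddSubmonoid ℕ}

theorem IsSer.isUnit (hB : IsSer iB S) {b : B} (hb : coeff 0 (iB b) ≠ 0) : IsUnit b := by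
  have h1 : iB b * (iB b)⁻¹ = 1 := PowerSeries.mul_inv_cancel _ (by simpa using hb)
  obtain ⟨c, hc⟩ := hB.surj (iB b)⁻¹ fun m => by
    induction m using Nat.strong_induction_on with
    | _ m ih =>
      intro hm
      have h2 := congrArg (coeff m) h1
      rw [coeff_mul, Finset.sum_eq_single (0, m), coeff_one, if_neg (by
        rintro rfl
        exact hm (zero_mem S))] at h2
      · exact (mul_eq_zero.1 h2).resolve_left hb
      · rintro ⟨i, j⟩ hp hne
        have h3 : i + j = m := Finset.HasAntidiagonal.mem_antidiagonal.1 hp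
        by_cases h4 : i ∈ S
        · rw [ih j (by
            by_contra h5
            exact hne (Prod.ext (by simp only; omega) (by simp only; omega)))
            fun h5 => hm (h3 ▸ add_mem h4 h5), mul_zero]
        · rw [hB.supp b i h4, zero_mul]
      · intro h; exact absurd (Finset.HasAntidiagonal.mem_antidiagonal.2 (zero_add m)) h
  exact IsUnit.of_mul_eq_one c (hB.inj (by rw [map_mul, hc, h1, map_one]))

/-- A module without self-extensions is stable under `t ↦ a t` for almost all `a`. -/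
theorem IsSer.exists_semi (hB : IsSer iB S) {n : ℕ} (hn : n ≠ 0) (hS : n ∈ S)
    {M K F : Type} [AddCommGroup M] [Module B M] [AddCommGroup K] [Module B K] [Module.Finite B K]
    [AddCommGroup F] [Module B F] [Module.Finite B F] [Module.Free B F]
    (ι : K →ₗ[B] F) (π : F →ₗ[B] M) (hπ : Function.Surjective π) (hex : Function.Exact ι π)
    (h : ∀ φ : K →ₗ[B] M, ∃ θ : F →ₗ[B] M, ∀ v, θ (ι v) = φ v) :
    ∃ p : Polynomial k, p ≠ 0 ∧ ∀ a : k, a ≠ 0 → p.eval a ≠ 0 → ∃ ψ : M →+ M,
      Function.Surjective ψ ∧ ∀ b c, iB c = rescale a (iB b) → ∀ m, ψ (b • m) = c • ψ m := by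
  let A := Ser (Polynomial k) S
  have hA := isSer_ser (k := Polynomial k) S
  obtain ⟨j, hj⟩ := (isSer_expand (k := Polynomial k) hn).exists_hom hA
    (AddSubmonoid.closure_le.2 (Set.singleton_subset_iff.2 hS))
  have : IsNoetherianRing A := by
    let _ := j.toAlgebra
    have := hA.finite hn hj
    exact IsNoetherianRing.of_finite (Polynomial k)⟦X⟧ A
  obtain ⟨i0, hi0⟩ := hB.exists_map hA Polynomial.C 1
  obtain ⟨σ, hσ⟩ := hB.exists_map hA Polynomial.C Polynomial.X
  choose ev hev using fun a : k => hA.exists_map hB (Polynomial.evalRingHom a) 1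
  have h1 : ∀ a b, ev a (i0 b) = b := fun a b => hB.inj (PowerSeries.ext fun m => by
    rw [hev, hi0]; simp [coeff_rescale])
  have h2 : ∀ a b, iB (ev a (σ b)) = rescale a (iB b) := fun a b => PowerSeries.ext fun m => by
    rw [hev, hσ]; simpa [coeff_rescale] using mul_comm _ _
  obtain ⟨ε, hε⟩ := hA.surj (PowerSeries.C (Polynomial.X - Polynomial.C 1)) fun m hm => by
    rw [coeff_C, if_neg]
    rintro rfl
    exact hm (zero_mem S)
  have hε0 : ε ≠ 0 := fun h0 => by
    rw [h0, map_zero] at hε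
    exact Polynomial.X_sub_C_ne_zero 1 (PowerSeries.C_injective (hε.symm.trans (map_zero _).symm))
  have hε1 : ev 1 ε = 0 := hB.inj (by rw [hev, hε]; simp)
  let _ := i0.toAlgebra
  have h3 : ∀ f : A, ∃ g : A, ε * g = f - i0 (ev 1 f) := fun f => by
    obtain ⟨g, hg⟩ := hA.surj (PowerSeries.mk fun m =>
      coeff m (f : (Polynomial k)⟦X⟧) /ₘ (Polynomial.X - Polynomial.C 1)) fun m hm => by
        rw [coeff_mk, f.2 m hm, Polynomial.zero_divByMonic]
    refine ⟨g, hA.inj (PowerSeries.ext fun m => ?_)⟩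
    rw [map_mul, hε, hg, coeff_C_mul, coeff_mk, Polynomial.X_sub_C_mul_divByMonic_eq_sub_modByMonic,
      Polynomial.modByMonic_X_sub_C_eq_C_eval, map_sub, map_sub, hi0, coeff_rescale, coeff_map, hev]
    simp [coeff_rescale]
  choose d0 hd0 using h3
  let d : A →ₗ[B] A :=
    { toFun := d0
      map_add' := fun f g => mul_left_cancel₀ hε0 (by
        rw [mul_add, hd0, hd0, hd0, map_add, map_add]; ring)
      map_smul' := fun b f => mul_left_cancel₀ hε0 (by
        change ε * d0 (i0 b * f) = ε * (i0 b * d0 f)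
        rw [mul_left_comm, hd0, hd0, map_mul, map_mul, h1]; ring) }
  let E : k → A ⊗[B] M →ₗ[B] M := fun a => (TensorProduct.lid B M).toLinearMap ∘ₗ
    LinearMap.rTensor M
      { toFun := ev a, map_add' := map_add _
        map_smul' := fun b f => by
          change ev a (i0 b * f) = b * ev a f
          rw [map_mul, h1] }
  have hE : ∀ a f m, E a (f ⊗ₜ m) = ev a f • m := fun a f m => rfl
  have hE' : ∀ a (f : A) w, E a (f • w) = ev a f • E a w := fun a f w => by
    induction w using TensorProduct.induction_on with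
    | zero => simp
    | tmul g m => rw [TensorProduct.smul_tmul', hE, hE, smul_eq_mul, map_mul, mul_smul]
    | add s t hs ht => rw [smul_add, map_add, map_add, hs, ht, smul_add]
  have hEs : ∀ a m, E a (1 ⊗ₜ m) = m := fun a m => by rw [hE, map_one, one_smul]
  have : Module.Finite B M := Module.Finite.of_surjective π hπ
  obtain ⟨ψ, ρ, hρ, hψ⟩ := exists_twist σ (ev 1) ε
    (fun b => hB.inj (by rw [h2, rescale_one, RingHom.id_apply])) hε1
    ({ toFun := E 1, map_add' := map_add _, map_smul' := hE' 1 } : A ⊗[B] M →ₛₗ[ev 1] M)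
    (fun m => ⟨_, hEs 1 m⟩) (fun w hw => ⟨d.rTensor M w, by
      have h4 : ∀ w, ε • d.rTensor M w = w - 1 ⊗ₜ E 1 w := fun w => by
        induction w using TensorProduct.induction_on with
        | zero => simp
        | tmul g m =>
          rw [LinearMap.rTensor_tmul, TensorProduct.smul_tmul', hE, ← TensorProduct.smul_tmul,
            ← TensorProduct.sub_tmul]
          exact congrArg (· ⊗ₜ m) ((hd0 g).trans (congrArg (g - ·) (mul_one _).symm))
        | add s t hs ht => rw [map_add, smul_add, hs, ht, map_add, TensorProduct.tmul_add]; abel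
      rw [h4, show E 1 w = 0 from hw, TensorProduct.tmul_zero, sub_zero]⟩)
    (Function.LeftInverse.injective (g := d.rTensor M) fun w => by
      induction w using TensorProduct.induction_on with
      | zero => simp
      | tmul g m =>
        simp only [TensorProduct.smul_tmul', LinearMap.rTensor_tmul]
        refine congrArg (· ⊗ₜ m) (mul_left_cancel₀ hε0 ((hd0 _).trans ?_))
        rw [smul_eq_mul, map_mul, hε1, zero_mul, map_zero, sub_zero]
      | add s t hs ht => simp only [smul_add, map_add] at hs ht ⊢; rw [hs, ht])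
    ι π hπ hex h
  have h5 : ∀ a, coeff 0 (iB (ev a ρ)) = (coeff 0 (ρ : (Polynomial k)⟦X⟧)).eval a := fun a => by
    rw [hev]; simp [coeff_rescale]
  refine ⟨coeff 0 (ρ : (Polynomial k)⟦X⟧), fun h0 => ?_, fun a ha hp => ?_⟩
  · have := h5 1
    rw [hρ, h0] at this
    simp at this
  · have h6 : ∀ b m, E a (ψ (b • m)) = ev a (σ b) • E a (ψ m) := fun b m => by
      rw [LinearMap.map_smulₛₗ, hE']
    have h7 : ∀ c, ∃ b, ev a (σ b) = c := fun c => ⟨ev a⁻¹ (σ c), hB.inj (by
      rw [h2, h2, rescale_rescale, inv_mul_cancel₀ ha, rescale_one, RingHom.id_apply])⟩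
    refine ⟨(E a).toAddMonoidHom.comp ψ.toAddMonoidHom, fun m => ?_,
      fun b c hc m => (h6 b m).trans (by rw [hB.inj (hc.trans (h2 a b).symm)]; rfl)⟩
    have h8 : ∀ w ∈ Submodule.span A (Set.range ψ), ∃ m, E a (ψ m) = E a w := fun w hw => by
      induction hw using Submodule.span_induction with
      | mem w hw => obtain ⟨m, rfl⟩ := hw; exact ⟨m, rfl⟩
      | zero => exact ⟨0, by simp⟩
      | add v w _ _ hv hw =>
        obtain ⟨m1, h1⟩ := hv
        obtain ⟨m2, h2⟩ := hw
        exact ⟨m1 + m2, by rw [map_add, map_add, map_add, h1, h2]⟩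
      | smul f w _ hw =>
        obtain ⟨m1, h1⟩ := hw
        obtain ⟨b, hb⟩ := h7 (ev a f)
        exact ⟨b • m1, by rw [h6, hb, h1, hE']⟩
    obtain ⟨u, hu⟩ := hB.isUnit (b := ev a ρ) (by rwa [h5])
    obtain ⟨m', hm'⟩ := h8 _ (hψ (1 ⊗ₜ ((u⁻¹ : Bˣ) • m)))
    exact ⟨m', hm'.trans (by rw [hE', hEs, ← hu, Units.smul_def, smul_smul, u.mul_inv, one_smul])⟩

/-- A module without self-extensions is stable under the roots of unity. -/
theorem IsSer.exists_tau [Infinite k] (hB : IsSer iB S) {n : ℕ} (hn : n ≠ 0) (hS : n ∈ S)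
    [Algebra k⟦X⟧ B] (hV : ∀ v, iB (algebraMap _ B v) = expand n hn v)
    {M K F : Type} [AddCommGroup M] [Module B M] [Module k⟦X⟧ M] [IsScalarTower k⟦X⟧ B M]
    [Module.Finite k⟦X⟧ M] [AddCommGroup K] [Module B K] [Module.Finite B K]
    [AddCommGroup F] [Module B F] [Module.Finite B F] [Module.Free B F]
    (ι : K →ₗ[B] F) (π : F →ₗ[B] M) (hπ : Function.Surjective π) (hex : Function.Exact ι π)
    (h : ∀ φ : K →ₗ[B] M, ∃ θ : F →ₗ[B] M, ∀ v, θ (ι v) = φ v) (ζ : k) (hζ : ζ ^ n = 1) :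
    ∃ τ : M →ₗ[k⟦X⟧] M, Function.Bijective τ ∧ ∀ (x : B) (h : ℕ), iB x = X ^ h → ∀ m,
      τ (x • m) = (PowerSeries.C (ζ ^ h) : k⟦X⟧) • x • τ m := by
  obtain ⟨p, hp, H⟩ := hB.exists_semi hn hS ι π hπ hex h
  have hf := Polynomial.finite_setOfPred_isRoot (mul_ne_zero Polynomial.X_ne_zero hp)
  obtain ⟨a, ha⟩ := (hf.union (hf.image fun a => ζ * a⁻¹)).exists_notMem
  have hζ0 : ζ ≠ 0 := ne_zero_pow hn (hζ ▸ one_ne_zero)
  have h1 : a ≠ 0 ∧ p.eval a ≠ 0 := by simpa [not_or] using fun h => ha (Or.inl h)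
  have h2 : ζ * a⁻¹ ≠ 0 ∧ p.eval (ζ * a⁻¹) ≠ 0 := by
    have : ¬ (Polynomial.X * p).IsRoot (ζ * a⁻¹) := fun h => ha (Or.inr ⟨_, h, by
      field_simp⟩)
    simpa only [Polynomial.IsRoot.def, Polynomial.eval_mul, Polynomial.eval_X, mul_eq_zero (a := ζ * a⁻¹),
      not_or] using this
  obtain ⟨ψ1, s1, t1⟩ := H a h1.1 h1.2
  obtain ⟨ψ2, s2, t2⟩ := H _ h2.1 h2.2
  have h3 : ∀ b c, iB c = rescale ζ (iB b) → ∀ m, ψ1 (ψ2 (b • m)) = c • ψ1 (ψ2 m) :=
    fun b c hc m => by
      obtain ⟨b', hb'⟩ := hB.surj (rescale (ζ * a⁻¹) (iB b)) fun m hm => by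
        rw [coeff_rescale, hB.supp b m hm, mul_zero]
      rw [t2 b b' hb', t1 b' c (by rw [hb', rescale_rescale, inv_mul_cancel_right₀ h1.1, hc])]
  let τ : M →ₗ[k⟦X⟧] M :=
    { toFun := fun m => ψ1 (ψ2 m)
      map_add' := fun _ _ => by simp only [map_add]
      map_smul' := fun v m => by
        rw [← algebraMap_smul B, h3 _ (algebraMap _ B v) (PowerSeries.ext fun i => by
          rw [coeff_rescale, hV, coeff_expand]
          split_ifs with hi
          · obtain ⟨q, rfl⟩ := hi
            rw [pow_mul, hζ, one_pow, one_mul]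
          · rw [mul_zero]), algebraMap_smul, RingHom.id_apply] }
  refine ⟨τ, OrzechProperty.bijective_of_surjective_endomorphism τ (s1.comp s2),
    fun x h hx m => (h3 x (algebraMap k⟦X⟧ B (PowerSeries.C (ζ ^ h)) * x) ?_ m).trans ?_⟩
  · rw [map_mul, hV, expand_C, hx, map_pow (rescale ζ), rescale_X, mul_pow, map_pow]
  · rw [mul_smul, algebraMap_smul]
    rfl

end Pool.Agent.Lib.MP_86e60f_al.Fp
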