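import Mathlib
import Pool.Agent.Lib.MP_86e60f_al.Fp.Tower
import Pool.Agent.Lib.MP_86e60f_al.Fp.Twist
import Pool.Agent.Lib.MP_86e60f_al.Homological
import Pool.Agent.Lib.MP_86e60f_al.RegSeq

set_option autoImplicit false

open PowerSeries IsLocalRing CategoryTheory Pool.Agent.Lib.MP_86e60f_al.Fs
open scoped TensorProduct

namespace Pool.Agent.Lib.MP_86e60f_al.Fp

variable {k : Type} [Field k]

theorem proj_closed [IsAlgClosed k] (n : ℕ → ℕ) (hn : n 0 ≠ 0) (g : ℕ)
    (hfree : ∀ i < g, (Finset.range (i + 1)).gcd n / (Finset.range (i + 2)).gcd n * n (i + 1) ∈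
      AddSubmonoid.closure (n '' Set.Iic i)) {B : Type} [CommRing B]
    {iB : B →+* k⟦X⟧} (hB : IsSer iB (AddSubmonoid.closure (n '' Set.Iic g))) {u : B}
    (hu : iB u = X ^ n 0) {M K F : Type} [AddCommGroup M] [Module B M] [AddCommGroup K]
    [Module B K] [Module.Finite B K] [AddCommGroup F] [Module B F] [Module.Finite B F]
    [Module.Free B F] (ι : K →ₗ[B] F) (π : F →ₗ[B] M) (hι : Function.Injective ι)
    (hπ : Function.Surjective π) (hex : Function.Exact ι π) (hM : IsSMulRegular M u)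
    (h : ∀ φ : K →ₗ[B] M, ∃ θ : F →ₗ[B] M, ∀ v, θ (ι v) = φ v) : Module.Projective B M := by
  have h0 := hB.mem_of_pow hu
  obtain ⟨j, hj⟩ := (isSer_expand (k := k) hn).exists_hom hB
    (AddSubmonoid.closure_le.2 (Set.singleton_subset_iff.2 h0))
  let _ := j.toAlgebra
  have hV : ∀ v, iB (algebraMap k⟦X⟧ B v) = expand (n 0) hn v := hj
  have G := good_free n hn g hfree B iB hB hV
  have := G.fin
  obtain rfl : u = algebraMap k⟦X⟧ B X := hB.inj (by rw [hV, expand_X, hu])
  let _ := Module.compHom M (algebraMap k⟦X⟧ B)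
  have : IsScalarTower k⟦X⟧ B M := IsScalarTower.of_compHom _ B M
  have : Module.Finite B M := Module.Finite.of_surjective π hπ
  have : Module.Finite k⟦X⟧ M := Module.Finite.trans B M
  refine G.proj inferInstance M (Lf.of_pres π hπ fun φ => ?_) hM
    (hB.exists_tau hn h0 hV ι π hπ hex h)
  obtain ⟨θ, hθ⟩ := h (φ ∘ₗ ι.codRestrict _ hex.apply_apply_eq_zero)
  refine ⟨θ, fun v => ?_⟩
  obtain ⟨_, hv⟩ := v
  obtain ⟨w, rfl⟩ := (hex _).1 hv
  exact hθ w

/-- The Huneke-Wiegand property, in every rank, for the rings of free numerical semigroups. -/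
theorem core (n : ℕ → ℕ) (hn : n 0 ≠ 0) (g : ℕ)
    (hfree : ∀ i < g, (Finset.range (i + 1)).gcd n / (Finset.range (i + 2)).gcd n * n (i + 1) ∈
      AddSubmonoid.closure (n '' Set.Iic i)) {B : Type} [CommRing B] [IsLocalRing B]
    {iB : B →+* k⟦X⟧} (hB : IsSer iB (AddSubmonoid.closure (n '' Set.Iic g)))
    (M : Type) [AddCommGroup M] [Module B M] [Module.Finite B M] {c c' : B}
    (hc : c ∈ maximalIdeal B) (hc' : c' ∈ maximalIdeal B) (hM : IsSMulRegular M c)
    (hT : IsSMulRegular (M ⊗[B] (M →ₗ[B] B)) c') : Module.Free B M := by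
  have h0 : n 0 ∈ AddSubmonoid.closure (n '' Set.Iic g) :=
    AddSubmonoid.subset_closure ⟨0, Nat.zero_le g, rfl⟩
  obtain ⟨j, hj⟩ := (isSer_expand (k := k) hn).exists_hom hB
    (AddSubmonoid.closure_le.2 (Set.singleton_subset_iff.2 h0))
  let _ := j.toAlgebra
  have hV : ∀ v, iB (algebraMap k⟦X⟧ B v) = expand (n 0) hn v := hj
  have G := good_free n hn g hfree B iB hB hV
  have := G.fin
  have := hB.inj.isDomain
  have := IsNoetherianRing.of_finite k⟦X⟧ B
  have hu : iB (algebraMap k⟦X⟧ B X) = X ^ n 0 := by rw [hV, expand_X]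
  have hu0 : algebraMap k⟦X⟧ B X ≠ 0 := fun h => by
    rw [h, map_zero] at hu
    exact pow_ne_zero _ X_ne_zero hu.symm
  have hreg : ∀ (N : Type) [AddCommGroup N] [Module B N], ∀ a ∈ maximalIdeal B,
      IsSMulRegular N a → IsSMulRegular N (algebraMap k⟦X⟧ B X) := by
    intro N _ _ a ha h
    obtain ⟨t, ht⟩ : a ∈ (Ideal.span {algebraMap k⟦X⟧ B X}).radical := by
      rw [Ideal.radical_eq_sInf, Ideal.mem_sInf]
      rintro p ⟨hp1, hp2⟩
      have h1 := (maximalIdeal.isMaximal k⟦X⟧).eq_of_le (Ideal.comap_ne_top _ hp2.ne_top) (by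
        rw [maximalIdeal_eq_span_X, Ideal.span_le, Set.singleton_subset_iff]
        exact hp1 (Ideal.mem_span_singleton_self _))
      rwa [eq_maximalIdeal (Ideal.isMaximal_of_isIntegral_of_isMaximal_comap (R := k⟦X⟧) p
        (h1 ▸ maximalIdeal.isMaximal _))]
    obtain ⟨w, hw⟩ := Ideal.mem_span_singleton'.1 ht
    exact IsSMulRegular.of_mul (a := w) (hw ▸ h.pow t)
  obtain ⟨r, π, hπ⟩ := Module.Finite.exists_fin' B M
  have hex := LinearMap.exact_subtype_ker_map π
  have h1 := G.gor.rigid hu0 (LinearMap.ker π).subtype π (Submodule.injective_subtype _) hπ hex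
    (hreg M c hc hM) (hreg _ c' hc' hT)
  have hB' := isSer_ser (k := AlgebraicClosure k) (AddSubmonoid.closure (n '' Set.Iic g))
  obtain ⟨f, hf⟩ := hB.exists_map hB' (algebraMap k (AlgebraicClosure k)) 1
  simp only [rescale_one, RingHom.id_apply] at hf
  let _ := f.toAlgebra
  have := hB.faithfullyFlat hB' hf hn h0
  have := proj_closed n hn g hfree hB' (u := f (algebraMap k⟦X⟧ B X))
    (by rw [hf, hu, map_pow, map_X]) ((LinearMap.ker π).subtype.baseChange _) (π.baseChange _)
    (Module.Flat.lTensor_preserves_injective_linearMap _ (Submodule.injective_subtype _))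
    (LinearMap.lTensor_surjective _ hπ) (Module.Flat.lTensor_exact _ hex)
    (((hreg M c hc hM).lTensor _).map _ fun w => algebraMap_smul _ _ w) (ext_baseChange _ h1)
  have := Module.Flat.of_flat_tensorProduct B M
    (Ser (AlgebraicClosure k) (AddSubmonoid.closure (n '' Set.Iic g)))
  exact Module.free_of_flat_of_isLocalRing

variable {R : Type} [CommRing R] [IsLocalRing R]

theorem exists_reg {N : Type} [AddCommGroup N] [Module R N] {t : ℕ}
    (e3 : (t : ℕ∞) < (maximalIdeal R).height) (h : IsCMOfCodim R N t) :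
    ∃ x ∈ maximalIdeal R, IsSMulRegular N x := by
  obtain ⟨hN, hd, hc⟩ := h
  obtain ⟨p, hp, hne⟩ : ∃ p ∈ Module.support R N, p ≠ closedPoint R := by
    by_contra! hall
    have : (maximalIdeal R).height ≤ cod R N := le_iInf₂ fun p hp => by rw [hall p hp]; rfl
    rw [hc] at this
    exact absurd this e3.not_ge
  have e4 : 0 < Module.supportDim R N := Order.krullDim_pos_iff.2
    ⟨⟨p, hp⟩, ⟨closedPoint R, closedPoint_mem_support R N⟩,
      lt_of_le_of_ne (le_maximalIdeal p.2.ne_top) fun e => hne (congrArg Subtype.val e)⟩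
  rw [← hd] at e4
  have e5 : 0 < depth R N := by exact_mod_cast e4
  obtain ⟨rs, e6⟩ := lt_iSup_iff.1 e5
  obtain ⟨⟨m1, m2⟩, e7⟩ := lt_iSup_iff.1 e6
  cases rs with
  | nil => simp at e7
  | cons x rs =>
    exact ⟨x, m1 x List.mem_cons_self,
      ((RingTheory.Sequence.isWeaklyRegular_cons_iff N x rs).1 m2.1).1⟩

theorem pd_ne_top [IsNoetherianRing R] {rs : List R} (hrs : RingTheory.Sequence.IsRegular R rs)
    (M : Type) [AddCommGroup M] [Module R M] [Module (R ⧸ Ideal.ofList rs) M]
    [IsScalarTower R (R ⧸ Ideal.ofList rs) M] [Module.Finite R M] [Nontrivial M]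
    [Module.Free (R ⧸ Ideal.ofList rs) M] : projectiveDimension (ModuleCat.of R M) ≠ ⊤ := by
  have : Module.Finite (R ⧸ Ideal.ofList rs) M := Module.Finite.of_restrictScalars_finite R _ _
  have hI : Ideal.ofList rs ≠ ⊤ := fun h => hrs.2 (by rw [h]; simp)
  have := Ideal.Quotient.nontrivial_iff.2 hI
  let r := Module.finrank (R ⧸ Ideal.ofList rs) M
  let π : (Fin r → R) →ₗ[R] M :=
    ((Module.finBasis (R ⧸ Ideal.ofList rs) M).equivFun.symm.restrictScalars R).toLinearMap ∘ₗ
      (Ideal.ofList rs).mkQ.compLeft (Fin r)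
  have hπ : Function.Surjective π := fun m => by
    choose a ha using fun i => Ideal.Quotient.mk_surjective
      ((Module.finBasis (R ⧸ Ideal.ofList rs) M).equivFun m i)
    exact ⟨a, (LinearEquiv.symm_apply_eq _).2 (funext ha)⟩
  have hker : (Ideal.ofList rs • ⊤ : Submodule R (Fin r → R)) = LinearMap.ker π := by
    refine le_antisymm (Submodule.smul_le.2 fun a ha f _ => ?_) fun f hf => ?_
    · rw [LinearMap.mem_ker, map_smul, ← algebraMap_smul (R ⧸ Ideal.ofList rs),
        Ideal.Quotient.algebraMap_eq, Ideal.Quotient.eq_zero_iff_mem.2 ha, zero_smul]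
    · have h1 : (Ideal.ofList rs).mkQ.compLeft (Fin r) f = 0 :=
        (Module.finBasis (R ⧸ Ideal.ofList rs) M).equivFun.symm.map_eq_zero_iff.1 hf
      rw [← Finset.univ_sum_single f]
      refine Submodule.sum_mem _ fun i _ => ?_
      rw [← mul_one (f i), ← smul_eq_mul, Pi.single_smul]
      exact Submodule.smul_mem_smul (Ideal.Quotient.eq_zero_iff_mem.1 (congrFun h1 i)) trivial
  have := hπ.nontrivial
  rw [← projectiveDimension_eq_of_iso
      ((Submodule.quotEquivOfEq _ _ hker).trans (π.quotKerEquivOfSurjective hπ)).toModuleIso,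
    ModuleCat.projectiveDimension_quotient_eq_add_length_of_isWeaklyRegular
      (ModuleCat.of R (Fin r → R)) rs
      (((TensorProduct.lid R _).isWeaklyRegular_congr rs).1 hrs.1.isWeaklyRegular_rTensor)
      fun a ha => le_maximalIdeal hI (Ideal.subset_span ha)]
  have hR : Projective (ModuleCat.of R (Fin r → R)) :=
    (IsProjective.iff_projective _).mp inferInstance
  have h0 := (projectiveDimension_le_iff _ 0).2 (projective_iff_hasProjectiveDimensionLT_one.1 hR)
  exact ne_top_of_le_ne_top (b := ((0 + rs.length : ℕ) : WithBot ℕ∞))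
    (fun h => ENat.natCast_ne_top _ (WithBot.coe_injective h))
    (by rw [Nat.cast_add]; exact add_le_add_left h0 _)

/-- Condition `(C_c)` for the modules over the rings of free numerical semigroups. -/
theorem cc (n : ℕ → ℕ) (hn : n 0 ≠ 0) (g : ℕ)
    (hfree : ∀ i < g, (Finset.range (i + 1)).gcd n / (Finset.range (i + 2)).gcd n * n (i + 1) ∈
      AddSubmonoid.closure (n '' Set.Iic i)) [IsNoetherianRing R] {rs : List R}
    (hrs : RingTheory.Sequence.IsRegular R rs) (φ : R →+* k⟦X⟧)
    (hker : RingHom.ker φ = Ideal.ofList rs)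
    (hφ : ∀ f, f ∈ φ.range ↔ ∀ m ∉ AddSubmonoid.closure (n '' Set.Iic g), coeff m f = 0)
    (M : Type) [AddCommGroup M] [Module R M] [Module (R ⧸ Ideal.ofList rs) M]
    [IsScalarTower R (R ⧸ Ideal.ofList rs) M] [Module.Finite R M]
    (hM : IsCMOfCodim R M rs.length)
    (hT : IsCMOfCodim R (M ⊗[R] Abelian.Ext.{0} (ModuleCat.of R M) (ModuleCat.of R R) rs.length)
      rs.length) :
    Module.Free (R ⧸ Ideal.ofList rs) M ∧ projectiveDimension (ModuleCat.of R M) ≠ ⊤ := by
  have hB : IsSer (Ideal.Quotient.lift (Ideal.ofList rs) φ fun a ha => hker.ge ha)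
      (AddSubmonoid.closure (n '' Set.Iic g)) :=
    ⟨RingHom.lift_injective_of_ker_le_ideal _ _ hker.le, fun b => by
      obtain ⟨b, rfl⟩ := Ideal.Quotient.mk_surjective b
      exact (hφ _).1 ⟨b, rfl⟩, fun f hf => by
      obtain ⟨b, rfl⟩ := (hφ f).2 hf
      exact ⟨Ideal.Quotient.mk _ b, rfl⟩⟩
  have hp : (Ideal.ofList rs).IsPrime := hker ▸ RingHom.ker_isPrime φ
  have : IsLocalRing (R ⧸ Ideal.ofList rs) := .of_surjective' _ Ideal.Quotient.mk_surjective
  have := IsLocalHom.of_surjective _ (Ideal.Quotient.mk_surjective (I := Ideal.ofList rs))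
  have h1 : (rs.length : ℕ∞) < (maximalIdeal R).height := by
    obtain ⟨u, hu⟩ := (hφ (X ^ n 0)).2 fun m hm => by
      rw [coeff_X_pow, if_neg]
      rintro rfl
      exact hm (AddSubmonoid.subset_closure ⟨0, Nat.zero_le g, rfl⟩)
    have h2 := Ideal.height_add_one_le_of_lt_of_isPrime (I := Ideal.ofList rs)
      (J := maximalIdeal R) (lt_of_le_of_ne (le_maximalIdeal hp.ne_top) fun e => by
        have h3 : u ∈ maximalIdeal R := fun h => by
          have := h.map φ
          rw [hu, isUnit_pow_iff hn] at this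
          exact X_prime.not_isUnit this
        rw [← e, ← hker, RingHom.mem_ker, hu] at h3
        exact pow_ne_zero _ X_ne_zero h3)
    rw [height_eq _ rs hrs.1 (by rw [Ideal.minimalPrimes_eq_subsingleton_self]; rfl)] at h2
    exact (ENat.add_one_le_iff (ENat.natCast_ne_top _)).1 h2
  obtain ⟨c, hc, hcM⟩ := exists_reg h1 hM
  obtain ⟨c', hc', hcT⟩ := exists_reg h1 hT
  obtain ⟨-, ⟨e⟩⟩ := rees (ModuleCat.of R M) rs (fun r hr => Module.mem_annihilator.2 fun v => by
    rw [← algebraMap_smul (R ⧸ Ideal.ofList rs), Ideal.Quotient.algebraMap_eq,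
      Ideal.Quotient.eq_zero_iff_mem.2 (show r ∈ Ideal.ofList rs from Ideal.subset_span hr),
      zero_smul]) (ModuleCat.of R R) hrs.1
  have h2 : (Ideal.ofList rs • ⊤ : Submodule R R) = Ideal.ofList rs := by
    rw [smul_eq_mul, Ideal.mul_top]
  have := TensorProduct.CompatibleSMul.of_algebraMap_surjective (A := R ⧸ Ideal.ofList rs) M
    (M →ₗ[R ⧸ Ideal.ofList rs] R ⧸ Ideal.ofList rs) Ideal.Quotient.mk_surjective
  have e' := (TensorProduct.congr (LinearEquiv.refl R M)
    ((e.trans (LinearEquiv.congrRight (Submodule.quotEquivOfEq _ _ h2))).trans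
      (LinearMap.extendScalarsOfSurjectiveEquiv (S := R ⧸ Ideal.ofList rs)
        Ideal.Quotient.mk_surjective))).trans
    (TensorProduct.equivOfCompatibleSMul R (R ⧸ Ideal.ofList rs) R M _).symm
  have : Module.Finite (R ⧸ Ideal.ofList rs) M := Module.Finite.of_restrictScalars_finite R _ _
  have := core n hn g hfree hB M (map_nonunit (Ideal.Quotient.mk _) c hc)
    (map_nonunit (Ideal.Quotient.mk _) c' hc') (hcM.map _ fun m => algebraMap_smul _ _ m)
    (((e'.isSMulRegular_congr c').1 hcT).map _ fun m => algebraMap_smul _ _ m)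
  have := hM.1
  exact ⟨inferInstance, pd_ne_top hrs M⟩

end Pool.Agent.Lib.MP_86e60f_al.Fp
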